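import Mathlib

set_option autoImplicit false
set_option linter.unusedSimpArgs false

/-!
# A binary unsaturated RNA structure that is not designable

A secondary structure on the positions `0, ..., n - 1` is a set of pairwise disjoint and noncrossing
arcs. A word over `{A, C, G, U}` is a design for a secondary structure `R` if `R` is the unique
maximum-size arc set of the word, arcs joining complementary letters. We show that the structure
`(.((.)(.((..)(..)))))` with 21 positions (dots are unpaired positions), whose tree is binary and unsaturated,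
has no design. This refutes the assertion that every structure with a binary unsaturated tree is
designable.
-/

namespace Pool.Agent.Results.MP_4bbd08_co.NotDesignable

/-- The four letters. -/
inductive Base where
  | A | U | G | C
  deriving DecidableEq

/-- The complementary letter: `{A, U}` and `{G, C}` are the two complementary pairs. -/
def Base.compl : Base → Base
  | .A => .U
  | .U => .A
  | .G => .C
  | .C => .G

/-- A secondary structure on `Fin n`: arcs `(i, j)` with `i < j`, no two of them share an endpoint,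
and no two of them cross. -/
def IsStructure {n : ℕ} (R : Finset (Fin n × Fin n)) : Prop :=
  (∀ a ∈ R, a.1 < a.2) ∧
  (∀ a ∈ R, ∀ b ∈ R, a ≠ b → a.1 ≠ b.1 ∧ a.1 ≠ b.2 ∧ a.2 ≠ b.1 ∧ a.2 ≠ b.2) ∧
  (∀ a ∈ R, ∀ b ∈ R, ¬ (a.1 < b.1 ∧ b.1 < a.2 ∧ a.2 < b.2))

/-- A position on no arc. -/
def Unpaired {n : ℕ} (R : Finset (Fin n × Fin n)) (p : Fin n) : Prop :=
  ∀ a ∈ R, a.1 ≠ p ∧ a.2 ≠ p

/-- The vertices of the tree of `R`, written as intervals: the arcs `(i, j)` and the unpaired
positions `(p, p)`. -/
def IsVertex {n : ℕ} (R : Finset (Fin n × Fin n)) (v : Fin n × Fin n) : Prop :=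
  v ∈ R ∨ (v.1 = v.2 ∧ Unpaired R v.1)

/-- The arc `a` strictly encloses the vertex `v`. -/
def Encloses {n : ℕ} (a v : Fin n × Fin n) : Prop := a.1 < v.1 ∧ v.2 < a.2

/-- `a` is the parent of the vertex `v`: the innermost arc of `R` strictly enclosing `v`. -/
def IsParent {n : ℕ} (R : Finset (Fin n × Fin n)) (a v : Fin n × Fin n) : Prop :=
  a ∈ R ∧ Encloses a v ∧ ∀ b ∈ R, Encloses b v → b = a ∨ Encloses b a

/-- Every vertex of the tree has at most two children (unpaired positions have none). -/
def IsBinary {n : ℕ} (R : Finset (Fin n × Fin n)) : Prop :=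
  ∀ a ∈ R, {v : Fin n × Fin n | IsVertex R v ∧ IsParent R a v}.ncard ≤ 2

/-- Some position is unpaired. -/
def IsUnsaturated {n : ℕ} (R : Finset (Fin n × Fin n)) : Prop := ∃ p : Fin n, Unpaired R p

/-- `R` is an arc set for the word `S`. -/
def IsArcSet {n : ℕ} (S : Fin n → Base) (R : Finset (Fin n × Fin n)) : Prop :=
  IsStructure R ∧ ∀ a ∈ R, S a.2 = (S a.1).compl

/-- `R` is the unique arc set of maximum size of some word `S`. -/
def IsDesignable {n : ℕ} (R : Finset (Fin n × Fin n)) : Prop :=
  ∃ S : Fin n → Base, IsArcSet S R ∧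
    ∀ R' : Finset (Fin n × Fin n), IsArcSet S R' → R'.card ≤ R.card ∧ (R'.card = R.card → R' = R)

/-- The arcs of the structure. -/
def arcsR : List (Fin 21 × Fin 21) := [(0, 20), (2, 19), (3, 5), (6, 18), (8, 17), (9, 12), (13, 16)]

/-- The structure `(.((.)(.((..)(..)))))`. -/
def R0 : Finset (Fin 21 × Fin 21) := arcsR.toFinset

theorem compl_compl (x : Base) : x.compl.compl = x := by cases x <;> rfl

/-- equality test -/
def eb : Base → Base → Bool
  | .A, .A => true
  | .U, .U => true
  | .G, .G => true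
  | .C, .C => true
  | _, _ => false

/-- complementarity test -/
def cb (x y : Base) : Bool := eb y x.compl

theorem eb_eq {x y : Base} (h : eb x y = true) : y = x := by
  cases x <;> cases y <;> first | rfl | (simp [eb] at h)

theorem cb_eq {x y : Base} (h : cb x y = true) : y = x.compl := (eb_eq h).symm

/-- all four letters -/
def all4 (f : Base → Bool) : Bool := f .A && f .U && f .G && f .C

theorem all4_get {f : Base → Bool} (h : all4 f = true) (x : Base) : f x = true := by
  simp only [all4, Bool.and_eq_true] at h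
  cases x
  · exact h.1.1.1
  · exact h.1.1.2
  · exact h.1.2
  · exact h.2

/-- The list is a secondary structure with at least seven arcs, different from `R0`. -/
def okAlt (l : List (Fin 21 × Fin 21)) : Bool :=
  (l.all fun a => decide (a.1 < a.2)) &&
  (l.all fun a => l.all fun b => decide (a = b ∨ (a.1 ≠ b.1 ∧ a.1 ≠ b.2 ∧ a.2 ≠ b.1 ∧ a.2 ≠ b.2))) &&
  (l.all fun a => l.all fun b => decide (¬ (a.1 < b.1 ∧ b.1 < a.2 ∧ a.2 < b.2))) &&
  decide (l.Nodup) && decide (7 ≤ l.length) && (l.any fun a => decide (a ∉ arcsR))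

theorem card_R0 : R0.card = 7 := by decide +kernel

theorem kill {S : Fin 21 → Base}
    (hd : ∀ R' : Finset (Fin 21 × Fin 21), IsArcSet S R' → R'.card ≤ R0.card ∧
      (R'.card = R0.card → R' = R0))
    (l : List (Fin 21 × Fin 21)) (h1 : okAlt l = true) (h2 : ∀ a ∈ l, S a.2 = (S a.1).compl) :
    False := by
  simp only [okAlt, Bool.and_eq_true, List.all_eq_true, List.any_eq_true, decide_eq_true_eq] at h1
  obtain ⟨⟨⟨⟨⟨ha, hb⟩, hc⟩, hn⟩, hl⟩, x, hx, hx2⟩ := h1
  have hstr : IsArcSet S l.toFinset := by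
    refine ⟨⟨fun a h => ha a (List.mem_toFinset.1 h), fun a h b h' hab => ?_, fun a h b h' => ?_⟩,
      fun a h => h2 a (List.mem_toFinset.1 h)⟩
    · rcases hb a (List.mem_toFinset.1 h) b (List.mem_toFinset.1 h') with h3 | h3
      · exact absurd h3 hab
      · exact h3
    · exact hc a (List.mem_toFinset.1 h) b (List.mem_toFinset.1 h')
  have hcard : l.toFinset.card = l.length := List.toFinset_card_of_nodup hn
  obtain ⟨h3, h4⟩ := hd _ hstr
  rw [card_R0] at h3 h4
  have h5 := h4 (by omega)
  apply hx2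
  have h6 : x ∈ l.toFinset := List.mem_toFinset.2 hx
  rw [h5] at h6
  exact List.mem_toFinset.1 h6

/-- tests after letter 1 -/
def t2 (x0 x1 : Base) : Bool :=
  (eb x0 x1) ||
  (cb x0 x1)

/-- tests after letter 2 -/
def t3 (x0 x1 x2 : Base) : Bool :=
  (eb x1 x2) ||
  (cb x1 x2) ||
  (cb x0 x2)

/-- tests after letter 3 -/
def t4 (x2 x3 : Base) : Bool :=
  (cb x2 x3)

/-- tests after letter 4 -/
def t5 (x1 x2 x3 x4 : Base) : Bool :=
  (eb x3 x4) ||
  (cb x3 x4) ||
  (eb x1 x3 && cb x2 x4) ||
  (cb x1 x3 && eb x2 x4)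

/-- tests after letter 5 -/
def t6 (x2 x3 x5 : Base) : Bool :=
  (eb x3 x5) ||
  (cb x2 x5)

/-- tests after letter 6 -/
def t7 (x1 x2 x3 x4 x5 x6 : Base) : Bool :=
  (eb x5 x6) ||
  (cb x5 x6) ||
  (eb x4 x5 && eb x3 x6) ||
  (eb x1 x5 && cb x2 x6) ||
  (cb x1 x5 && eb x2 x6) ||
  (cb x3 x6 && cb x4 x5)

/-- tests after letter 7 -/
def t8 (x5 x6 x7 : Base) : Bool :=
  (eb x6 x7) ||
  (cb x6 x7) ||
  (cb x5 x7)

/-- tests after letter 8 -/
def t9 (x7 x8 : Base) : Bool :=
  (cb x7 x8)

/-- tests after letter 9 -/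
def t10 (x1 x2 x3 x4 x5 x6 x7 x8 x9 : Base) : Bool :=
  (eb x8 x9) ||
  (cb x8 x9) ||
  (eb x6 x8 && cb x7 x9) ||
  (cb x6 x8 && eb x7 x9) ||
  (cb x1 x9 && cb x2 x8 && cb x3 x7 && cb x4 x6) ||
  (cb x1 x9 && cb x2 x8 && cb x4 x7 && eb x3 x6) ||
  (eb x1 x8 && cb x2 x9 && cb x3 x8 && cb x4 x7 && eb x3 x6) ||
  (eb x1 x5 && cb x2 x4 && cb x3 x7 && eb x5 x8 && cb x6 x9)

/-- tests after letter 10 -/
def t11 (x1 x2 x3 x4 x5 x6 x7 x8 x9 x10 : Base) : Bool :=
  (eb x8 x10) ||
  (cb x8 x10) ||
  (cb x9 x10) ||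
  (cb x4 x7 && eb x3 x6 && eb x5 x9 && eb x7 x10) ||
  (eb x3 x8 && cb x4 x10 && cb x5 x9 && cb x6 x8) ||
  (cb x1 x7 && cb x2 x6 && eb x5 x9 && eb x7 x10) ||
  (cb x1 x6 && eb x2 x7 && eb x5 x9 && eb x7 x10) ||
  (eb x4 x8 && eb x3 x10 && cb x5 x9 && cb x6 x8) ||
  (cb x3 x7 && cb x4 x6 && eb x5 x9 && eb x7 x10) ||
  (eb x1 x8 && cb x2 x10 && cb x3 x9 && cb x4 x7 && eb x3 x6)

/-- tests after letter 11 -/
def t12 (x7 x8 x11 : Base) : Bool :=
  (eb x8 x11) ||
  (cb x7 x11)

/-- tests after letter 12 -/
def t13 (x1 x2 x3 x4 x5 x6 x7 x8 x9 x10 x11 x12 : Base) : Bool :=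
  (eb x11 x12) ||
  (cb x11 x12) ||
  (eb x10 x11 && eb x8 x12) ||
  (eb x6 x11 && cb x7 x12) ||
  (cb x6 x11 && eb x7 x12) ||
  (cb x8 x12 && cb x9 x11) ||
  (cb x6 x9 && cb x10 x11 && eb x7 x12) ||
  (eb x3 x11 && cb x4 x12 && eb x5 x8 && cb x6 x9) ||
  (eb x1 x11 && cb x2 x12 && cb x3 x11 && cb x4 x7 && eb x3 x6)

/-- tests after letter 13 -/
def t14 (x3 x4 x5 x6 x11 x12 x13 : Base) : Bool :=
  (eb x11 x13) ||
  (cb x11 x13) ||
  (cb x12 x13) ||
  (eb x4 x11 && eb x3 x13 && cb x5 x12 && cb x6 x11)

theorem cover :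
    (all4 fun x0 => all4 fun x1 => t2 x0 x1 ||
      all4 fun x2 => t3 x0 x1 x2 ||
      all4 fun x3 => t4 x2 x3 ||
      all4 fun x4 => t5 x1 x2 x3 x4 ||
      all4 fun x5 => t6 x2 x3 x5 ||
      all4 fun x6 => t7 x1 x2 x3 x4 x5 x6 ||
      all4 fun x7 => t8 x5 x6 x7 ||
      all4 fun x8 => t9 x7 x8 ||
      all4 fun x9 => t10 x1 x2 x3 x4 x5 x6 x7 x8 x9 ||
      all4 fun x10 => t11 x1 x2 x3 x4 x5 x6 x7 x8 x9 x10 ||
      all4 fun x11 => t12 x7 x8 x11 ||
      all4 fun x12 => t13 x1 x2 x3 x4 x5 x6 x7 x8 x9 x10 x11 x12 ||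
      all4 fun x13 => t14 x3 x4 x5 x6 x11 x12 x13) = true := by
  decide +kernel

theorem not_designable : ¬ IsDesignable R0 := by
  rintro ⟨S, ⟨-, hS⟩, hd⟩
  have c20 : S 20 = (S 0).compl := hS (0, 20) (by decide)
  have c19 : S 19 = (S 2).compl := hS (2, 19) (by decide)
  have c5 : S 5 = (S 3).compl := hS (3, 5) (by decide)
  have c18 : S 18 = (S 6).compl := hS (6, 18) (by decide)
  have c17 : S 17 = (S 8).compl := hS (8, 17) (by decide)
  have c12 : S 12 = (S 9).compl := hS (9, 12) (by decide)
  have c16 : S 16 = (S 13).compl := hS (13, 16) (by decide)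
  have h := all4_get (all4_get cover (S 0)) (S 1)
  rcases (Bool.or_eq_true _ _).mp h with h | h
  · simp only [t2, Bool.or_eq_true, Bool.and_eq_true] at h
    rcases h with h | h
    · have e0 := h
      replace e0 := eb_eq e0
      exact kill hd [(1, 20), (2, 19), (3, 5), (6, 18), (8, 17), (9, 12), (13, 16)] (by decide +kernel)
        (by simp [c20, c19, c5, c18, c17, c12, c16, compl_compl, e0])
    · have e0 := h
      replace e0 := cb_eq e0
      exact kill hd [(0, 1), (2, 19), (3, 5), (6, 18), (8, 17), (9, 12), (13, 16)] (by decide +kernel)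
        (by simp [c20, c19, c5, c18, c17, c12, c16, compl_compl, e0])
  replace h := all4_get h (S 2)
  rcases (Bool.or_eq_true _ _).mp h with h | h
  · simp only [t3, Bool.or_eq_true, Bool.and_eq_true] at h
    rcases h with (h | h) | h
    · have e0 := h
      replace e0 := eb_eq e0
      exact kill hd [(0, 20), (1, 19), (3, 5), (6, 18), (8, 17), (9, 12), (13, 16)] (by decide +kernel)
        (by simp [c20, c19, c5, c18, c17, c12, c16, compl_compl, e0])
    · have e0 := h
      replace e0 := cb_eq e0
      exact kill hd [(0, 20), (1, 2), (3, 5), (6, 18), (8, 17), (9, 12), (13, 16)] (by decide +kernel)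
        (by simp [c20, c19, c5, c18, c17, c12, c16, compl_compl, e0])
    · have e0 := h
      replace e0 := cb_eq e0
      exact kill hd [(0, 2), (3, 5), (6, 18), (8, 17), (9, 12), (13, 16), (19, 20)] (by decide +kernel)
        (by simp [c20, c19, c5, c18, c17, c12, c16, compl_compl, e0])
  replace h := all4_get h (S 3)
  rcases (Bool.or_eq_true _ _).mp h with h | h
  · simp only [t4, Bool.or_eq_true, Bool.and_eq_true] at h
    have e0 := h
    replace e0 := cb_eq e0
    exact kill hd [(0, 20), (2, 3), (5, 19), (6, 18), (8, 17), (9, 12), (13, 16)] (by decide +kernel)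
      (by simp [c20, c19, c5, c18, c17, c12, c16, compl_compl, e0])
  replace h := all4_get h (S 4)
  rcases (Bool.or_eq_true _ _).mp h with h | h
  · simp only [t5, Bool.or_eq_true, Bool.and_eq_true] at h
    rcases h with ((h | h) | h) | h
    · have e0 := h
      replace e0 := eb_eq e0
      exact kill hd [(0, 20), (2, 19), (4, 5), (6, 18), (8, 17), (9, 12), (13, 16)] (by decide +kernel)
        (by simp [c20, c19, c5, c18, c17, c12, c16, compl_compl, e0])
    · have e0 := h
      replace e0 := cb_eq e0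
      exact kill hd [(0, 20), (2, 19), (3, 4), (6, 18), (8, 17), (9, 12), (13, 16)] (by decide +kernel)
        (by simp [c20, c19, c5, c18, c17, c12, c16, compl_compl, e0])
    · obtain ⟨e0, e1⟩ := h
      replace e0 := eb_eq e0
      replace e1 := cb_eq e1
      exact kill hd [(0, 20), (1, 5), (2, 4), (6, 18), (8, 17), (9, 12), (13, 16)] (by decide +kernel)
        (by simp [c20, c19, c5, c18, c17, c12, c16, compl_compl, e0, e1])
    · obtain ⟨e0, e1⟩ := h
      replace e0 := cb_eq e0
      replace e1 := eb_eq e1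
      exact kill hd [(0, 20), (1, 3), (4, 19), (6, 18), (8, 17), (9, 12), (13, 16)] (by decide +kernel)
        (by simp [c20, c19, c5, c18, c17, c12, c16, compl_compl, e0, e1])
  replace h := all4_get h (S 6)
  rcases (Bool.or_eq_true _ _).mp h with h | h
  · simp only [t6, Bool.or_eq_true, Bool.and_eq_true] at h
    rcases h with h | h
    · have e0 := h
      replace e0 := eb_eq e0
      exact kill hd [(0, 20), (2, 19), (3, 18), (5, 6), (8, 17), (9, 12), (13, 16)] (by decide +kernel)
        (by simp [c20, c19, c5, c18, c17, c12, c16, compl_compl, e0])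
    · have e0 := h
      replace e0 := cb_eq e0
      exact kill hd [(0, 20), (2, 6), (3, 5), (8, 17), (9, 12), (13, 16), (18, 19)] (by decide +kernel)
        (by simp [c20, c19, c5, c18, c17, c12, c16, compl_compl, e0])
  replace h := all4_get h (S 7)
  rcases (Bool.or_eq_true _ _).mp h with h | h
  · simp only [t7, Bool.or_eq_true, Bool.and_eq_true] at h
    rcases h with ((((h | h) | h) | h) | h) | h
    · have e0 := h
      replace e0 := eb_eq e0
      exact kill hd [(0, 20), (2, 19), (3, 5), (7, 18), (8, 17), (9, 12), (13, 16)] (by decide +kernel)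
        (by simp [c20, c19, c5, c18, c17, c12, c16, compl_compl, e0])
    · have e0 := h
      replace e0 := cb_eq e0
      exact kill hd [(0, 20), (2, 19), (3, 5), (6, 7), (8, 17), (9, 12), (13, 16)] (by decide +kernel)
        (by simp [c20, c19, c5, c18, c17, c12, c16, compl_compl, e0])
    · obtain ⟨e0, e1⟩ := h
      replace e0 := eb_eq e0
      replace e1 := eb_eq e1
      exact kill hd [(0, 20), (2, 19), (4, 18), (5, 7), (8, 17), (9, 12), (13, 16)] (by decide +kernel)
        (by simp [c20, c19, c5, c18, c17, c12, c16, compl_compl, e0, e1])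
    · obtain ⟨e0, e1⟩ := h
      replace e0 := eb_eq e0
      replace e1 := cb_eq e1
      exact kill hd [(0, 20), (1, 18), (2, 7), (3, 5), (8, 17), (9, 12), (13, 16)] (by decide +kernel)
        (by simp [c20, c19, c5, c18, c17, c12, c16, compl_compl, e0, e1])
    · obtain ⟨e0, e1⟩ := h
      replace e0 := cb_eq e0
      replace e1 := eb_eq e1
      exact kill hd [(0, 20), (1, 6), (3, 5), (7, 19), (8, 17), (9, 12), (13, 16)] (by decide +kernel)
        (by simp [c20, c19, c5, c18, c17, c12, c16, compl_compl, e0, e1])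
    · obtain ⟨e0, e1⟩ := h
      replace e0 := cb_eq e0
      replace e1 := cb_eq e1
      exact kill hd [(0, 20), (2, 19), (3, 7), (4, 6), (8, 17), (9, 12), (13, 16)] (by decide +kernel)
        (by simp [c20, c19, c5, c18, c17, c12, c16, compl_compl, e0, e1])
  replace h := all4_get h (S 8)
  rcases (Bool.or_eq_true _ _).mp h with h | h
  · simp only [t8, Bool.or_eq_true, Bool.and_eq_true] at h
    rcases h with (h | h) | h
    · have e0 := h
      replace e0 := eb_eq e0
      exact kill hd [(0, 20), (2, 19), (3, 5), (6, 18), (7, 17), (9, 12), (13, 16)] (by decide +kernel)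
        (by simp [c20, c19, c5, c18, c17, c12, c16, compl_compl, e0])
    · have e0 := h
      replace e0 := cb_eq e0
      exact kill hd [(0, 20), (2, 19), (3, 5), (6, 18), (7, 8), (9, 12), (13, 16)] (by decide +kernel)
        (by simp [c20, c19, c5, c18, c17, c12, c16, compl_compl, e0])
    · have e0 := h
      replace e0 := cb_eq e0
      exact kill hd [(0, 20), (2, 19), (3, 5), (6, 8), (9, 12), (13, 16), (17, 18)] (by decide +kernel)
        (by simp [c20, c19, c5, c18, c17, c12, c16, compl_compl, e0])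
  replace h := all4_get h (S 9)
  rcases (Bool.or_eq_true _ _).mp h with h | h
  · simp only [t9, Bool.or_eq_true, Bool.and_eq_true] at h
    have e0 := h
    replace e0 := cb_eq e0
    exact kill hd [(0, 20), (2, 19), (3, 5), (6, 18), (8, 9), (12, 17), (13, 16)] (by decide +kernel)
      (by simp [c20, c19, c5, c18, c17, c12, c16, compl_compl, e0])
  replace h := all4_get h (S 10)
  rcases (Bool.or_eq_true _ _).mp h with h | h
  · simp only [t10, Bool.or_eq_true, Bool.and_eq_true] at h
    rcases h with ((((((h | h) | h) | h) | h) | h) | h) | h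
    · have e0 := h
      replace e0 := eb_eq e0
      exact kill hd [(0, 20), (2, 19), (3, 5), (6, 18), (8, 17), (10, 12), (13, 16)] (by decide +kernel)
        (by simp [c20, c19, c5, c18, c17, c12, c16, compl_compl, e0])
    · have e0 := h
      replace e0 := cb_eq e0
      exact kill hd [(0, 20), (2, 19), (3, 5), (6, 18), (8, 17), (9, 10), (13, 16)] (by decide +kernel)
        (by simp [c20, c19, c5, c18, c17, c12, c16, compl_compl, e0])
    · obtain ⟨e0, e1⟩ := h
      replace e0 := eb_eq e0
      replace e1 := cb_eq e1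
      exact kill hd [(0, 20), (2, 19), (3, 5), (6, 18), (7, 12), (8, 10), (13, 16)] (by decide +kernel)
        (by simp [c20, c19, c5, c18, c17, c12, c16, compl_compl, e0, e1])
    · obtain ⟨e0, e1⟩ := h
      replace e0 := cb_eq e0
      replace e1 := eb_eq e1
      exact kill hd [(0, 20), (2, 19), (3, 5), (6, 18), (7, 9), (10, 17), (13, 16)] (by decide +kernel)
        (by simp [c20, c19, c5, c18, c17, c12, c16, compl_compl, e0, e1])
    · obtain ⟨⟨⟨e0, e1⟩, e2⟩, e3⟩ := h
      replace e0 := cb_eq e0
      replace e1 := cb_eq e1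
      replace e2 := cb_eq e2
      replace e3 := cb_eq e3
      exact kill hd [(0, 20), (1, 10), (2, 9), (3, 8), (4, 7), (12, 19), (13, 16)] (by decide +kernel)
        (by simp [c20, c19, c5, c18, c17, c12, c16, compl_compl, e0, e1, e2, e3])
    · obtain ⟨⟨⟨e0, e1⟩, e2⟩, e3⟩ := h
      replace e0 := cb_eq e0
      replace e1 := cb_eq e1
      replace e2 := cb_eq e2
      replace e3 := eb_eq e3
      exact kill hd [(0, 20), (1, 10), (2, 9), (4, 8), (5, 7), (12, 19), (13, 16)] (by decide +kernel)
        (by simp [c20, c19, c5, c18, c17, c12, c16, compl_compl, e0, e1, e2, e3])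
    · obtain ⟨⟨⟨⟨e0, e1⟩, e2⟩, e3⟩, e4⟩ := h
      replace e0 := eb_eq e0
      replace e1 := cb_eq e1
      replace e2 := cb_eq e2
      replace e3 := cb_eq e3
      replace e4 := eb_eq e4
      exact kill hd [(0, 20), (1, 12), (2, 10), (3, 9), (4, 8), (5, 7), (13, 16)] (by decide +kernel)
        (by simp [c20, c19, c5, c18, c17, c12, c16, compl_compl, e0, e1, e2, e3, e4, e0.symm.trans e2])
    · obtain ⟨⟨⟨⟨e0, e1⟩, e2⟩, e3⟩, e4⟩ := h
      replace e0 := eb_eq e0
      replace e1 := cb_eq e1
      replace e2 := cb_eq e2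
      replace e3 := eb_eq e3
      replace e4 := cb_eq e4
      exact kill hd [(0, 20), (1, 18), (2, 4), (5, 17), (6, 12), (7, 10), (13, 16)] (by decide +kernel)
        (by simp [c20, c19, c5, c18, c17, c12, c16, compl_compl, e0, e1, e2, e3, e4])
  replace h := all4_get h (S 11)
  rcases (Bool.or_eq_true _ _).mp h with h | h
  · simp only [t11, Bool.or_eq_true, Bool.and_eq_true] at h
    rcases h with ((((((((h | h) | h) | h) | h) | h) | h) | h) | h) | h
    · have e0 := h
      replace e0 := eb_eq e0
      exact kill hd [(0, 20), (2, 19), (3, 5), (6, 18), (8, 17), (11, 12), (13, 16)] (by decide +kernel)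
        (by simp [c20, c19, c5, c18, c17, c12, c16, compl_compl, e0])
    · have e0 := h
      replace e0 := cb_eq e0
      exact kill hd [(0, 20), (2, 19), (3, 5), (6, 18), (8, 17), (9, 11), (13, 16)] (by decide +kernel)
        (by simp [c20, c19, c5, c18, c17, c12, c16, compl_compl, e0])
    · have e0 := h
      replace e0 := cb_eq e0
      exact kill hd [(0, 20), (2, 19), (3, 5), (6, 18), (8, 17), (9, 12), (10, 11), (13, 16)] (by decide +kernel)
        (by simp [c20, c19, c5, c18, c17, c12, c16, compl_compl, e0])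
    · obtain ⟨⟨⟨e0, e1⟩, e2⟩, e3⟩ := h
      replace e0 := cb_eq e0
      replace e1 := eb_eq e1
      replace e2 := eb_eq e2
      replace e3 := eb_eq e3
      exact kill hd [(0, 20), (2, 19), (4, 8), (5, 7), (10, 18), (11, 17), (13, 16)] (by decide +kernel)
        (by simp [c20, c19, c5, c18, c17, c12, c16, compl_compl, e0, e1, e2, e3])
    · obtain ⟨⟨⟨e0, e1⟩, e2⟩, e3⟩ := h
      replace e0 := eb_eq e0
      replace e1 := cb_eq e1
      replace e2 := cb_eq e2
      replace e3 := cb_eq e3
      exact kill hd [(0, 20), (2, 19), (3, 12), (4, 11), (6, 10), (7, 9), (13, 16)] (by decide +kernel)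
        (by simp [c20, c19, c5, c18, c17, c12, c16, compl_compl, e0, e1, e2, e3, e0.symm.trans e3])
    · obtain ⟨⟨⟨e0, e1⟩, e2⟩, e3⟩ := h
      replace e0 := cb_eq e0
      replace e1 := cb_eq e1
      replace e2 := eb_eq e2
      replace e3 := eb_eq e3
      exact kill hd [(0, 20), (1, 8), (2, 7), (3, 5), (10, 18), (11, 17), (13, 16)] (by decide +kernel)
        (by simp [c20, c19, c5, c18, c17, c12, c16, compl_compl, e0, e1, e2, e3])
    · obtain ⟨⟨⟨e0, e1⟩, e2⟩, e3⟩ := h
      replace e0 := cb_eq e0
      replace e1 := eb_eq e1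
      replace e2 := eb_eq e2
      replace e3 := eb_eq e3
      exact kill hd [(0, 20), (1, 7), (3, 5), (8, 19), (10, 18), (11, 17), (13, 16)] (by decide +kernel)
        (by simp [c20, c19, c5, c18, c17, c12, c16, compl_compl, e0, e1, e2, e3])
    · obtain ⟨⟨⟨e0, e1⟩, e2⟩, e3⟩ := h
      replace e0 := eb_eq e0
      replace e1 := eb_eq e1
      replace e2 := cb_eq e2
      replace e3 := cb_eq e3
      exact kill hd [(0, 20), (2, 19), (4, 12), (5, 11), (6, 10), (7, 9), (13, 16)] (by decide +kernel)
        (by simp [c20, c19, c5, c18, c17, c12, c16, compl_compl, e0, e1, e2, e3, e0.symm.trans e3])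
    · obtain ⟨⟨⟨e0, e1⟩, e2⟩, e3⟩ := h
      replace e0 := cb_eq e0
      replace e1 := cb_eq e1
      replace e2 := eb_eq e2
      replace e3 := eb_eq e3
      exact kill hd [(0, 20), (2, 19), (3, 8), (4, 7), (10, 18), (11, 17), (13, 16)] (by decide +kernel)
        (by simp [c20, c19, c5, c18, c17, c12, c16, compl_compl, e0, e1, e2, e3])
    · obtain ⟨⟨⟨⟨e0, e1⟩, e2⟩, e3⟩, e4⟩ := h
      replace e0 := eb_eq e0
      replace e1 := cb_eq e1
      replace e2 := cb_eq e2
      replace e3 := cb_eq e3
      replace e4 := eb_eq e4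
      exact kill hd [(0, 20), (1, 12), (2, 11), (3, 10), (4, 8), (5, 7), (13, 16)] (by decide +kernel)
        (by simp [c20, c19, c5, c18, c17, c12, c16, compl_compl, e0, e1, e2, e3, e4])
  replace h := all4_get h (S 13)
  rcases (Bool.or_eq_true _ _).mp h with h | h
  · simp only [t12, Bool.or_eq_true, Bool.and_eq_true] at h
    rcases h with h | h
    · have e0 := h
      replace e0 := eb_eq e0
      exact kill hd [(0, 20), (2, 19), (3, 5), (6, 18), (8, 17), (9, 16), (12, 13)] (by decide +kernel)
        (by simp [c20, c19, c5, c18, c17, c12, c16, compl_compl, e0])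
    · have e0 := h
      replace e0 := cb_eq e0
      exact kill hd [(0, 20), (2, 19), (3, 5), (6, 18), (8, 13), (9, 12), (16, 17)] (by decide +kernel)
        (by simp [c20, c19, c5, c18, c17, c12, c16, compl_compl, e0])
  replace h := all4_get h (S 14)
  rcases (Bool.or_eq_true _ _).mp h with h | h
  · simp only [t13, Bool.or_eq_true, Bool.and_eq_true] at h
    rcases h with (((((((h | h) | h) | h) | h) | h) | h) | h) | h
    · have e0 := h
      replace e0 := eb_eq e0
      exact kill hd [(0, 20), (2, 19), (3, 5), (6, 18), (8, 17), (9, 12), (14, 16)] (by decide +kernel)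
        (by simp [c20, c19, c5, c18, c17, c12, c16, compl_compl, e0])
    · have e0 := h
      replace e0 := cb_eq e0
      exact kill hd [(0, 20), (2, 19), (3, 5), (6, 18), (8, 17), (9, 12), (13, 14)] (by decide +kernel)
        (by simp [c20, c19, c5, c18, c17, c12, c16, compl_compl, e0])
    · obtain ⟨e0, e1⟩ := h
      replace e0 := eb_eq e0
      replace e1 := eb_eq e1
      exact kill hd [(0, 20), (2, 19), (3, 5), (6, 18), (8, 17), (11, 16), (12, 14)] (by decide +kernel)
        (by simp [c20, c19, c5, c18, c17, c12, c16, compl_compl, e0, e1])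
    · obtain ⟨e0, e1⟩ := h
      replace e0 := eb_eq e0
      replace e1 := cb_eq e1
      exact kill hd [(0, 20), (2, 19), (3, 5), (6, 18), (7, 16), (8, 14), (9, 12)] (by decide +kernel)
        (by simp [c20, c19, c5, c18, c17, c12, c16, compl_compl, e0, e1])
    · obtain ⟨e0, e1⟩ := h
      replace e0 := cb_eq e0
      replace e1 := eb_eq e1
      exact kill hd [(0, 20), (2, 19), (3, 5), (6, 18), (7, 13), (9, 12), (14, 17)] (by decide +kernel)
        (by simp [c20, c19, c5, c18, c17, c12, c16, compl_compl, e0, e1])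
    · obtain ⟨e0, e1⟩ := h
      replace e0 := cb_eq e0
      replace e1 := cb_eq e1
      exact kill hd [(0, 20), (2, 19), (3, 5), (6, 18), (8, 17), (9, 14), (10, 13)] (by decide +kernel)
        (by simp [c20, c19, c5, c18, c17, c12, c16, compl_compl, e0, e1])
    · obtain ⟨⟨e0, e1⟩, e2⟩ := h
      replace e0 := cb_eq e0
      replace e1 := cb_eq e1
      replace e2 := eb_eq e2
      exact kill hd [(0, 20), (2, 19), (3, 5), (6, 18), (7, 10), (11, 13), (14, 17)] (by decide +kernel)
        (by simp [c20, c19, c5, c18, c17, c12, c16, compl_compl, e0, e1, e2])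
    · obtain ⟨⟨⟨e0, e1⟩, e2⟩, e3⟩ := h
      replace e0 := eb_eq e0
      replace e1 := cb_eq e1
      replace e2 := eb_eq e2
      replace e3 := cb_eq e3
      exact kill hd [(0, 20), (2, 19), (3, 16), (4, 14), (5, 13), (6, 12), (7, 10)] (by decide +kernel)
        (by simp [c20, c19, c5, c18, c17, c12, c16, compl_compl, e0, e1, e2, e3])
    · obtain ⟨⟨⟨⟨e0, e1⟩, e2⟩, e3⟩, e4⟩ := h
      replace e0 := eb_eq e0
      replace e1 := cb_eq e1
      replace e2 := cb_eq e2
      replace e3 := cb_eq e3
      replace e4 := eb_eq e4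
      exact kill hd [(0, 20), (1, 16), (2, 14), (3, 13), (4, 8), (5, 7), (9, 12)] (by decide +kernel)
        (by simp [c20, c19, c5, c18, c17, c12, c16, compl_compl, e0, e1, e2, e3, e4, e0.symm.trans e2])
  replace h := all4_get h (S 15)
  simp only [t14, Bool.or_eq_true, Bool.and_eq_true] at h
  rcases h with ((h | h) | h) | h
  · have e0 := h
    replace e0 := eb_eq e0
    exact kill hd [(0, 20), (2, 19), (3, 5), (6, 18), (8, 17), (9, 12), (15, 16)] (by decide +kernel)
      (by simp [c20, c19, c5, c18, c17, c12, c16, compl_compl, e0])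
  · have e0 := h
    replace e0 := cb_eq e0
    exact kill hd [(0, 20), (2, 19), (3, 5), (6, 18), (8, 17), (9, 12), (13, 15)] (by decide +kernel)
      (by simp [c20, c19, c5, c18, c17, c12, c16, compl_compl, e0])
  · have e0 := h
    replace e0 := cb_eq e0
    exact kill hd [(0, 20), (2, 19), (3, 5), (6, 18), (8, 17), (9, 12), (13, 16), (14, 15)] (by decide +kernel)
      (by simp [c20, c19, c5, c18, c17, c12, c16, compl_compl, e0])
  · obtain ⟨⟨⟨e0, e1⟩, e2⟩, e3⟩ := h
    replace e0 := eb_eq e0
    replace e1 := eb_eq e1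
    replace e2 := cb_eq e2
    replace e3 := cb_eq e3
    exact kill hd [(0, 20), (2, 19), (4, 16), (5, 15), (6, 14), (7, 13), (9, 12)] (by decide +kernel)
      (by simp [c20, c19, c5, c18, c17, c12, c16, compl_compl, e0, e1, e2, e3, e0.symm.trans e3])

theorem structure_R0 : IsStructure R0 := by
  refine ⟨?_, ?_, ?_⟩
  · decide +kernel
  · decide +kernel
  · decide +kernel

instance {n : ℕ} (R : Finset (Fin n × Fin n)) (p : Fin n) : Decidable (Unpaired R p) := by
  unfold Unpaired; infer_instance

instance {n : ℕ} (R : Finset (Fin n × Fin n)) (v : Fin n × Fin n) : Decidable (IsVertex R v) := by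
  unfold IsVertex; infer_instance

instance {n : ℕ} (a v : Fin n × Fin n) : Decidable (Encloses a v) := by
  unfold Encloses; infer_instance

instance {n : ℕ} (R : Finset (Fin n × Fin n)) (a v : Fin n × Fin n) :
    Decidable (IsParent R a v) := by
  unfold IsParent; infer_instance

theorem binary_R0 : IsBinary R0 := by
  intro a ha
  have key : ∀ a ∈ R0, (Finset.univ.filter fun v : Fin 21 × Fin 21 =>
      IsVertex R0 v ∧ IsParent R0 a v).card ≤ 2 := by decide +kernel
  have h := key a ha
  rwa [← Set.ncard_coe_finset, Finset.coe_filter_univ] at h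

theorem unsaturated_R0 : IsUnsaturated R0 := ⟨1, by decide +kernel⟩

/-- There is a secondary structure on 21 positions whose first and last positions are joined by an
arc, whose tree is binary and unsaturated, and which is not designable. -/
theorem result : ∃ R : Finset (Fin 21 × Fin 21), IsStructure R ∧ (0, 20) ∈ R ∧
    IsBinary R ∧ IsUnsaturated R ∧ ¬ IsDesignable R :=
  ⟨R0, structure_R0, by decide +kernel, binary_R0, unsaturated_R0, not_designable⟩

end Pool.Agent.Results.MP_4bbd08_co.NotDesignable
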